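import Pool.Agent.H719R4.FZ.Fin7

/-!
# Analytically integrable billiard flows on algebraic tables

Joint work of project CZ (helper738 and helpers 8, 18, 20, 25, 48, 51, 55, 60, 75, 85, 89, 92, 93,
131, 133, 134, 155, 196, 197, 201, 218, 255, 272, 368, 379, 423, 439, 479, 495, 503, 541, 584, 602,
613, 640, 672, 678, 680, 708, 723, 747, 771, 781, 782, 847, 879, 881, 898, 903, 913, 948, 965, 971,
992) and project FX (helper719 and helpers 6, 7, 8, 18, 21, 53, 55, 56, 61, 64, 70, 85, 92, 93, 130,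
134, 138, 143, 154, 187, 188, 196, 197, 202, 213, 221, 234, 235, 248, 250, 269, 272, 274, 275, 277,
298, 303, 305, 317, 318, 329, 341, 365, 368, 370, 399, 403, 404, 405, 409, 413, 418, 431, 434, 455,
464, 470, 477, 481, 487, 509, 534, 545, 553, 577, 579, 585, 609, 617, 619, 624, 632, 634, 635, 642,
666, 679, 680, 682, 699, 700, 704, 708, 714, 724, 740, 742, 775, 781, 784, 786, 793, 799, 802, 807,
816, 827, 828, 837, 873, 896, 899, 909, 913, 931, 946, 954, 972, 973, 974, 987, 989, 991).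
-/

open Complex Set Filter Topology

open scoped Polynomial ContDiff

namespace Pool.Agent.Results.MP_85545d_an.AlgebraicTables

/-- `γ` is a closed smooth (`C^∞`) plane curve with positive radius of curvature `ρ`, parametrised
by its normal angle: `γ'(s) = ρ(s) i e^{is}`; the outer unit normal at `γ s` is `e^{is}`. -/
def IsSmoothOval (γ : ℝ → ℂ) (ρ : ℝ → ℝ) : Prop :=
  (∀ s, γ (s + 2 * Real.pi) = γ s) ∧ ContDiff ℝ ∞ γ ∧ Continuous ρ ∧ (∀ s, 0 < ρ s) ∧
    ∀ s : ℝ, HasDerivAt γ ((ρ s : ℂ) * I * cexp (s * I)) s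

/-- `γ` lies on an algebraic curve: there is a nonzero complex polynomial `A` in two variables
(a polynomial in the second variable whose coefficients are polynomials in the first one) with
`A(z, conj z) = 0` for all points `z` of `γ`. -/
def IsAlgebraic (γ : ℝ → ℂ) : Prop :=
  ∃ A : Polynomial (Polynomial ℂ), A ≠ 0 ∧
    ∀ s : ℝ, (A.eval (Polynomial.C ((starRingEnd ℂ) (γ s)))).eval (γ s) = 0

/-- the unit vector with normal angle `φ` (the velocity `i e^{iφ}`; the tangent vector of the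
boundary at `γ φ`) -/
noncomputable def velocity (φ : ℝ) : ℂ := I * cexp (φ * I)

/-- `F(q, φ)`, a function of the position `q` and the normal angle `φ` of the unit velocity
`v = velocity φ`, is a real analytic first integral of the billiard flow (at unit speed) near the
boundary states `(γ φ, velocity φ)`: it is analytic where `|q - γ φ| < ε`, it is constant along
free motion there, and it takes the same value at the two states over a boundary point `γ s` with
velocities of normal angles `s + δ` and `s - δ`, which are exchanged by the reflection in the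
tangent at `γ s`, for all small `δ > 0`. -/
def IsFlowIntegral (γ : ℝ → ℂ) (F : ℂ → ℝ → ℝ) (ε : ℝ) : Prop :=
  AnalyticOnNhd ℝ (Function.uncurry F) {z | ‖z.1 - γ z.2‖ < ε} ∧
    (∀ (q : ℂ) (φ t : ℝ), ‖q - γ φ‖ < ε → ‖q + t * velocity φ - γ φ‖ < ε →
      F (q + t * velocity φ) φ = F q φ) ∧
    ∀ s : ℝ, ∃ εs > 0, ∀ δ : ℝ, 0 < δ → δ < εs → F (γ s) (s + δ) = F (γ s) (s - δ)

/-- the range of `γ` is an ellipse: the set of the points `(x, y)` with
`a (x - u)² + 2 b (x - u) (y - v) + d (y - v)² = 1`, the quadratic form being positive definite -/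
def IsEllipse (γ : ℝ → ℂ) : Prop :=
  ∃ (c : ℂ) (a b d : ℝ), 0 < a ∧ 0 < a * d - b ^ 2 ∧
    Set.range γ = {x : ℂ | a * (x.re - c.re) ^ 2 + 2 * b * (x.re - c.re) * (x.im - c.im)
      + d * (x.im - c.im) ^ 2 = 1}

/-- support coordinate -/
noncomputable def sp (z : ℂ) (φ : ℝ) : ℝ := (z * cexp (-(φ * I))).re

/-- coordinate along the line -/
noncomputable def tp (z : ℂ) (φ : ℝ) : ℝ := (z * cexp (-(φ * I))).im

lemma decomp (z : ℂ) (φ : ℝ) : z = sp z φ * cexp (φ * I) + tp z φ * velocity φ := by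
  have h : z = (z * cexp (-(φ * I))) * cexp (φ * I) := by
    rw [mul_assoc, ← Complex.exp_add]
    simp
  have h2 : (z * cexp (-(φ * I))) = (sp z φ : ℂ) + (tp z φ : ℂ) * I := by
    unfold sp tp
    exact (Complex.re_add_im _).symm
  conv_lhs => rw [h, h2]
  unfold velocity
  ring

/-- the function of lines -/
noncomputable def Kf (γ : ℝ → ℂ) (F : ℂ → ℝ → ℝ) (φ p : ℝ) : ℝ :=
  F (γ φ + ((p - sp (γ φ) φ : ℝ) : ℂ) * cexp (φ * I)) φ

lemma norm_e (φ : ℝ) : ‖cexp (φ * I)‖ = 1 := Complex.norm_exp_ofReal_mul_I φ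

/-- the value at any point of the line near the boundary point -/
lemma Kf_eq {γ : ℝ → ℂ} {F : ℂ → ℝ → ℝ} {ε : ℝ} (h : IsFlowIntegral γ F ε) (q : ℂ) (φ p : ℝ)
    (hq : ‖q - γ φ‖ < ε) (hp : |p - sp (γ φ) φ| < ε) (hs : sp q φ = p) : Kf γ F φ p = F q φ := by
  unfold Kf
  have h1 : γ φ + ((p - sp (γ φ) φ : ℝ) : ℂ) * cexp (φ * I)
      = q + ((tp (γ φ) φ - tp q φ : ℝ) : ℂ) * velocity φ := by
    have e1 := decomp (γ φ) φ
    have e2 := decomp q φ
    rw [hs] at e2
    push_cast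
    linear_combination e1 - e2
  rw [h1]
  refine h.2.1 q φ _ hq ?_
  rw [← h1, add_sub_cancel_left, norm_mul, norm_e, mul_one, Complex.norm_real, Real.norm_eq_abs]
  exact hp

lemma velocity_norm (φ : ℝ) : ‖velocity φ‖ = 1 := by
  simp [velocity]

lemma sp_velocity (φ : ℝ) : sp (velocity φ) φ = 0 := by
  have : velocity φ * cexp (-(φ * I)) = I := by
    unfold velocity
    rw [mul_assoc, ← Complex.exp_add]
    simp
  simp [sp, this]

lemma sp_e (φ : ℝ) : sp (cexp (φ * I)) φ = 1 := by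
  have : cexp (φ * I) * cexp (-(φ * I)) = 1 := by
    rw [← Complex.exp_add]
    simp
  simp [sp, this]

lemma sp_add (z w : ℂ) (φ : ℝ) : sp (z + w) φ = sp z φ + sp w φ := by
  simp [sp, add_mul]

lemma sp_smul (a : ℝ) (z : ℂ) (φ : ℝ) : sp (a * z) φ = a * sp z φ := by
  unfold sp
  rw [mul_assoc, Complex.re_ofReal_mul]

lemma continuous_sp : Continuous fun x : ℂ × ℝ => sp x.1 x.2 := by
  unfold sp
  fun_prop

lemma analytic_e (x : ℝ × ℝ) : AnalyticAt ℝ (fun x : ℝ × ℝ => cexp ((x.1 : ℂ) * I)) x := by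
  have h1 : AnalyticAt ℝ (fun x : ℝ × ℝ => ((x.1 : ℝ) : ℂ)) x :=
    (Complex.ofRealCLM.analyticAt _).comp analyticAt_fst
  have h2 : AnalyticAt ℝ (fun x : ℝ × ℝ => ((x.1 : ℝ) : ℂ) * I) x := h1.mul analyticAt_const
  exact (analyticAt_cexp.restrictScalars (𝕜 := ℝ)).comp h2

/-- the function of lines is analytic -/
lemma Kf_analytic {γ : ℝ → ℂ} {F : ℂ → ℝ → ℝ} {ε : ℝ} (hγ : Continuous γ)
    (h : IsFlowIntegral γ F ε) :
    AnalyticOnNhd ℝ (Function.uncurry (Kf γ F)) {z | |z.2 - sp (γ z.1) z.1| < ε} := by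
  rintro ⟨φ0, p0⟩ h0
  have h0' : |p0 - sp (γ φ0) φ0| < ε := h0
  set τ : ℝ := tp (γ φ0) φ0 with hτ
  let Q : ℝ × ℝ → ℂ := fun x => (x.2 : ℂ) * cexp ((x.1 : ℂ) * I) + τ * (I * cexp ((x.1 : ℂ) * I))
  have hQa : AnalyticAt ℝ Q (φ0, p0) := by
    have h1 : AnalyticAt ℝ (fun x : ℝ × ℝ => ((x.2 : ℝ) : ℂ)) (φ0, p0) :=
      (Complex.ofRealCLM.analyticAt _).comp analyticAt_snd
    have h2 := analytic_e (φ0, p0)
    exact (h1.mul h2).add (analyticAt_const.mul (analyticAt_const.mul h2))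
  have hQ0 : ‖Q (φ0, p0) - γ φ0‖ < ε := by
    have e1 := decomp (γ φ0) φ0
    have : Q (φ0, p0) - γ φ0 = ((p0 - sp (γ φ0) φ0 : ℝ) : ℂ) * cexp (φ0 * I) := by
      show (p0 : ℂ) * cexp ((φ0 : ℂ) * I) + τ * (I * cexp ((φ0 : ℂ) * I)) - γ φ0 = _
      push_cast
      unfold velocity at e1
      linear_combination -e1
    rw [this, norm_mul, norm_e, mul_one, Complex.norm_real, Real.norm_eq_abs]
    exact h0'
  have hFa : AnalyticAt ℝ (Function.uncurry F) (Q (φ0, p0), φ0) := h.1 _ hQ0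
  have hmap : AnalyticAt ℝ (fun x : ℝ × ℝ => (Q x, x.1)) (φ0, p0) := hQa.prod analyticAt_fst
  have hcomp : AnalyticAt ℝ (fun x : ℝ × ℝ => F (Q x) x.1) (φ0, p0) :=
    AnalyticAt.comp (g := Function.uncurry F) (f := fun x : ℝ × ℝ => (Q x, x.1)) hFa hmap
  refine hcomp.congr ?_
  have hc1 : ContinuousAt (fun x : ℝ × ℝ => ‖Q x - γ x.1‖) (φ0, p0) :=
    (hQa.continuousAt.sub (hγ.continuousAt.comp continuousAt_fst)).norm
  have hc2 : ContinuousAt (fun x : ℝ × ℝ => |x.2 - sp (γ x.1) x.1|) (φ0, p0) := by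
    have : Continuous fun x : ℝ × ℝ => |x.2 - sp (γ x.1) x.1| :=
      (continuous_snd.sub (continuous_sp.comp
        ((hγ.comp continuous_fst).prodMk continuous_fst))).abs
    exact this.continuousAt
  filter_upwards [hc1.eventually_lt continuousAt_const hQ0,
    hc2.eventually_lt continuousAt_const h0'] with x hx1 hx2
  have hs : sp (Q x) x.1 = x.2 := by
    have : Q x = (x.2 : ℂ) * cexp ((x.1 : ℂ) * I) + (τ : ℂ) * velocity x.1 := rfl
    rw [this, sp_add, sp_smul, sp_smul, sp_e, sp_velocity]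
    ring
  exact (Kf_eq h (Q x) x.1 x.2 hx1 hx2 hs).symm

/-- Let `γ` be a smooth algebraic oval.  If the billiard flow in `γ` has a nonconstant real
analytic first integral near the boundary, then `γ` is an ellipse. -/
theorem result : ∀ (γ : ℝ → ℂ) (ρ : ℝ → ℝ), IsSmoothOval γ ρ → IsAlgebraic γ →
    ∀ (F : ℂ → ℝ → ℝ) (ε : ℝ), 0 < ε → IsFlowIntegral γ F ε →
    (∃ (q r : ℂ) (φ ψ : ℝ), ‖q - γ φ‖ < ε ∧ ‖r - γ ψ‖ < ε ∧ F q φ ≠ F r ψ) →
    IsEllipse γ := by
  rintro γ ρ ⟨h1, h0, h2, h3, h4⟩ ⟨A, hA, hA0⟩ F ε hε hF ⟨q, r, φ, ψ, hq, hr, hne⟩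
  have hγ : Continuous γ := h0.continuous
  have hsup : ∀ (z w : ℂ) (φ : ℝ), |sp z φ - sp w φ| ≤ ‖z - w‖ := by
    intro z w φ
    have : sp z φ - sp w φ = ((z - w) * cexp (-(φ * I))).re := by
      simp [sp, sub_mul]
    rw [this]
    refine (Complex.abs_re_le_norm _).trans ?_
    rw [norm_mul]
    have : ‖cexp (-(φ * I))‖ = 1 := by
      have := norm_e (-φ)
      push_cast at this
      rwa [neg_mul] at this
    rw [this, mul_one]
  refine H719FX.fin_aay γ ρ ⟨h1, h2, h3, h4⟩ (Kf γ F) ε hε (Kf_analytic hγ hF) ?_ ?_ h0 A hA hA0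
  · intro s
    obtain ⟨ε1, hε1, hinv⟩ := hF.2.2 s
    have hcont : ContinuousAt (fun x : ℝ => ‖γ s - γ x‖) s :=
      (continuousAt_const.sub hγ.continuousAt).norm
    have hev : ∀ᶠ x in 𝓝 s, ‖γ s - γ x‖ < ε := by
      refine hcont.eventually_lt continuousAt_const ?_
      simpa using hε
    obtain ⟨ε2, hε2, hball⟩ := Metric.eventually_nhds_iff.mp hev
    refine ⟨min ε1 ε2, lt_min hε1 hε2, fun δ hδ hδ' => ?_⟩
    have a1 : ‖γ s - γ (s + δ)‖ < ε := hball (by
      rw [Real.dist_eq]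
      simpa [abs_of_pos hδ] using hδ'.trans_le (min_le_right _ _))
    have a2 : ‖γ s - γ (s - δ)‖ < ε := hball (by
      rw [Real.dist_eq]
      simpa [abs_of_pos hδ] using hδ'.trans_le (min_le_right _ _))
    have b1 := Kf_eq hF (γ s) (s + δ) (sp (γ s) (s + δ)) a1 ((hsup _ _ _).trans_lt a1) rfl
    have b2 := Kf_eq hF (γ s) (s - δ) (sp (γ s) (s - δ)) a2 ((hsup _ _ _).trans_lt a2) rfl
    show Kf γ F (s + δ) (sp (γ s) (s + δ)) = Kf γ F (s - δ) (sp (γ s) (s - δ))
    rw [b1, b2]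
    exact hinv δ hδ (hδ'.trans_le (min_le_left _ _))
  · rintro ⟨c, hc⟩
    apply hne
    have c1 := Kf_eq hF q φ (sp q φ) hq ((hsup _ _ _).trans_lt hq) rfl
    have c2 := Kf_eq hF r ψ (sp r ψ) hr ((hsup _ _ _).trans_lt hr) rfl
    rw [← c1, ← c2]
    exact (hc φ _ ((hsup _ _ _).trans_lt hq)).trans (hc ψ _ ((hsup _ _ _).trans_lt hr)).symm

end Pool.Agent.Results.MP_85545d_an.AlgebraicTables
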