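import Pool.Agent.H738R2.PI.Fin

/-!
# The Birkhoff conjecture for integrals that are polynomial in the position

Modules proved by helpers 64, 92, 121, 131, 155, 202, 205, 227, 284, 329, 338, 368, 423, 477, 584,
634, 675, 738, 880, 910, 921, 956, 971.
-/

open Complex Set

namespace Pool.Agent.Results.MP_85545d_an.PositionPolynomial

/-- `γ` is a closed plane curve with positive continuous radius of curvature `ρ`, parametrised by
its normal angle: `γ'(s) = ρ(s) i e^{is}`; the outer unit normal at `γ s` is `e^{is}`. -/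
def IsOval (γ : ℝ → ℂ) (ρ : ℝ → ℝ) : Prop :=
  (∀ s, γ (s + 2 * Real.pi) = γ s) ∧ Continuous ρ ∧ (∀ s, 0 < ρ s) ∧
    ∀ s : ℝ, HasDerivAt γ ((ρ s : ℂ) * I * cexp (s * I)) s

/-- The value of `K(p, φ) = ∑_{j ≤ N} a_j(φ) p^j` at the oriented line through the point `z` with
normal angle `φ` (its support coordinate is `p = Re (z e^{-iφ})`). -/
noncomputable def lineValue (a : ℕ → ℝ → ℝ) (N : ℕ) (z : ℂ) (φ : ℝ) : ℝ :=
  ∑ j ∈ Finset.range (N + 1), a j φ * ((z * cexp (-(φ * I))).re) ^ j

/-- Suppose that near the boundary the billiard in the oval `γ` has a nonconstant first integral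
`K(p, φ) = ∑_{j ≤ N} a_j(φ) p^j`, a polynomial of arbitrary degree in the support coordinate `p` of
an oriented line whose coefficients `a_j` are arbitrary real analytic `2π`-periodic functions of
its normal angle `φ`: for every boundary point `γ s` the two lines through `γ s` with normal angles
`s + δ` and `s - δ` (the outgoing and the incoming one) have the same value of `K`, for all small
`δ > 0`.  Then `γ` is an ellipse. -/
theorem result : ∀ (γ : ℝ → ℂ) (ρ : ℝ → ℝ) (a : ℕ → ℝ → ℝ) (N : ℕ), IsOval γ ρ →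
    (∀ j, AnalyticOnNhd ℝ (a j) Set.univ) → (∀ j s, a j (s + 2 * Real.pi) = a j s) →
    (∃ (z w : ℂ) (φ ψ : ℝ), lineValue a N z φ ≠ lineValue a N w ψ) →
    (∀ s : ℝ, ∃ ε > 0, ∀ δ : ℝ, 0 < δ → δ < ε →
      lineValue a N (γ s) (s + δ) = lineValue a N (γ s) (s - δ)) →
    ∃ (c : ℂ) (a b d : ℝ), 0 < a ∧ 0 < a * d - b ^ 2 ∧
      Set.range γ = {x : ℂ | a * (x.re - c.re) ^ 2 + 2 * b * (x.re - c.re) * (x.im - c.im)
        + d * (x.im - c.im) ^ 2 = 1} := by
  intro γ ρ a N hO hA hper hnc hinv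
  have hC : H738PI.Coef a :=
    ⟨fun j => continuous_iff_continuousAt.mpr fun x => (hA j x (Set.mem_univ x)).continuousAt, hper⟩
  have hNC : H738PI.NonConst a N := by
    rintro ⟨c, hc⟩
    obtain ⟨z, w, φ, ψ, h⟩ := hnc
    exact h ((hc z φ).trans (hc w ψ).symm)
  exact H738PI.mainNear γ ρ a N ⟨hO.1, hO.2.1, hO.2.2.1, hO.2.2.2⟩ hC hA hNC hinv

end Pool.Agent.Results.MP_85545d_an.PositionPolynomial
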